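import Pool.Agent.Helper28.T3.StD

/-!
# Imaginary quadratic fields with odd discriminant: elementary facts
-/

set_option autoImplicit false

open scoped NumberField

namespace Pool.Agent.Helper14.IT

open Pool.Agent.Helper28.T3

/-! ### The discriminant is `1` modulo `4` -/

private theorem newbasis {M : Type} [AddCommGroup M] (c : Module.Basis (Fin 2) ℤ M) (p q r s : ℤ)
    (h : p * s - q * r = 1) :
    ∃ b : Module.Basis (Fin 2) ℤ M, b 0 = p • c 0 + q • c 1 ∧ b 1 = r • c 0 + s • c 1 := by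
  have hli : LinearIndependent ℤ ![p • c 0 + q • c 1, r • c 0 + s • c 1] := by
    rw [LinearIndependent.pair_iff]
    intro m n hmn
    have h1 : (m * p + n * r) • c 0 + (m * q + n * s) • c 1 = 0 := by
      rw [← hmn]
      module
    have h2 := (Fintype.linearIndependent_iff.1 c.linearIndependent)
      ![m * p + n * r, m * q + n * s] (by simpa [Fin.sum_univ_two] using h1)
    have h3 := h2 0
    have h4 := h2 1
    simp only [Matrix.cons_val_zero, Matrix.cons_val_one] at h3 h4
    constructor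
    · linear_combination s * h3 - r * h4 - m * h
    · linear_combination p * h4 - q * h3 - n * h
  have hsp : ⊤ ≤ Submodule.span ℤ (Set.range ![p • c 0 + q • c 1, r • c 0 + s • c 1]) := by
    rw [← c.span_eq, Submodule.span_le]
    rintro _ ⟨i, rfl⟩
    rw [Matrix.range_cons, Matrix.range_cons, Matrix.range_empty, Set.union_empty,
      Set.singleton_union]
    refine Submodule.mem_span_pair.2 ?_
    fin_cases i
    · refine ⟨s, -q, ?_⟩
      have : s • (p • c 0 + q • c 1) + -q • (r • c 0 + s • c 1) = (p * s - q * r) • c 0 := by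
        module
      rw [this, h, one_smul]
      rfl
    · refine ⟨-r, p, ?_⟩
      have : -r • (p • c 0 + q • c 1) + p • (r • c 0 + s • c 1) = (p * s - q * r) • c 1 := by
        module
      rw [this, h, one_smul]
      rfl
  refine ⟨Module.Basis.mk hli hsp, ?_, ?_⟩
  · rw [Module.Basis.mk_apply]; rfl
  · rw [Module.Basis.mk_apply]; rfl

private theorem one_basis (K : Type) [Field K] [NumberField K] (h2 : Module.finrank ℚ K = 2) :
    ∃ b : Module.Basis (Fin 2) ℤ (𝓞 K), b 0 = 1 := by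
  have hr : Module.finrank ℤ (𝓞 K) = 2 := by rw [NumberField.RingOfIntegers.rank, h2]
  let c : Module.Basis (Fin 2) ℤ (𝓞 K) := Module.finBasisOfFinrankEq ℤ (𝓞 K) hr
  have h1 : (1 : 𝓞 K) = c.repr 1 0 • c 0 + c.repr 1 1 • c 1 := by
    have := c.sum_repr 1
    rw [Fin.sum_univ_two] at this
    exact this.symm
  have hcop : IsCoprime (c.repr 1 0) (c.repr 1 1) := by
    rw [Int.isCoprime_iff_gcd_eq_one]
    set g : ℕ := Int.gcd (c.repr 1 0) (c.repr 1 1) with hg
    obtain ⟨x, hx⟩ : (g : ℤ) ∣ c.repr 1 0 := Int.gcd_dvd_left ..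
    obtain ⟨y, hy⟩ : (g : ℤ) ∣ c.repr 1 1 := Int.gcd_dvd_right ..
    have h3 : algebraMap ℤ (𝓞 K) (g : ℤ) * (x • c 0 + y • c 1) = 1 := by
      rw [← Algebra.smul_def, smul_add, smul_smul, smul_smul, ← hx, ← hy, ← h1]
    have h4 : IsUnit (algebraMap ℤ (𝓞 K) (g : ℤ)) := IsUnit.of_mul_eq_one _ h3
    have h5 := h4.map (Algebra.norm ℤ)
    rw [Algebra.norm_algebraMap_of_basis c, Fintype.card_fin, isUnit_pow_iff two_ne_zero,
      Int.isUnit_iff_natAbs_eq] at h5
    simpa using h5
  obtain ⟨u, v, huv⟩ := hcop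
  obtain ⟨b, hb0, -⟩ := newbasis c (c.repr 1 0) (c.repr 1 1) (-v) u (by linear_combination huv)
  exact ⟨b, by rw [hb0, ← h1]⟩

/-- An odd discriminant `-D` of a quadratic field satisfies `D = 3` modulo `4`. -/
theorem mod_four (D : ℕ) (K : Type) [Field K] [NumberField K] (h2 : Module.finrank ℚ K = 2)
    (hd : NumberField.discr K = -(D : ℤ)) (hodd : Odd D) : D % 4 = 3 := by
  obtain ⟨c, hc0⟩ := one_basis K h2
  set s : ℤ := c.repr (c 1 * c 1) 0 with hs
  set t : ℤ := c.repr (c 1 * c 1) 1 with ht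
  have h1 : c 1 * c 1 = s • (1 : 𝓞 K) + t • c 1 := by
    have := c.sum_repr (c 1 * c 1)
    rw [Fin.sum_univ_two, hc0] at this
    exact this.symm
  have t0 : Algebra.trace ℤ (𝓞 K) (1 : 𝓞 K) = 2 := by
    have := Algebra.trace_algebraMap_of_basis c (1 : ℤ)
    simpa using this
  have t1 : Algebra.trace ℤ (𝓞 K) (c 1) = t := by
    rw [Algebra.trace_eq_matrix_trace c, Matrix.trace_fin_two,
      Algebra.leftMulMatrix_eq_repr_mul, Algebra.leftMulMatrix_eq_repr_mul, hc0, mul_one,
      c.repr_self, ← ht]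
    simp
  have t2 : Algebra.trace ℤ (𝓞 K) (c 1 * c 1) = 2 * s + t * t := by
    rw [h1, map_add, map_zsmul, map_zsmul, t0, t1, smul_eq_mul, smul_eq_mul]
    ring
  have h3 : t * t + 4 * s = -(D : ℤ) := by
    rw [← hd, ← NumberField.discr_eq_discr K c, Algebra.discr_def, Matrix.det_fin_two]
    simp only [Algebra.traceMatrix_apply, Algebra.traceForm_apply, hc0, mul_one, one_mul, t0, t1, t2]
    ring
  have hD2 : D % 2 = 1 := Nat.odd_iff.1 hodd
  rcases Int.emod_two_eq_zero_or_one t with h | h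
  · exfalso
    obtain ⟨k, hk⟩ : (2 : ℤ) ∣ t := Int.dvd_of_emod_eq_zero h
    rw [hk] at h3
    have h5 : 2 * k * (2 * k) = 4 * (k * k) := by ring
    omega
  · obtain ⟨k, hk⟩ : ∃ k : ℤ, t = 2 * k + 1 := ⟨t / 2, by omega⟩
    rw [hk] at h3
    have h5 : (2 * k + 1) * (2 * k + 1) = 4 * (k * k + k) + 1 := by ring
    omega

/-! ### Coordinates -/

section

variable {D : ℕ} {K : Type} [Field K] [NumberField K]

/-- `ω`-coordinates of multiples. -/
private theorem coord (q : QF D K) (m : ℤ) (x y : ℤ) (z : 𝓞 K)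
    (h : (m : 𝓞 K) * z = x • (1 : 𝓞 K) + y • q.b 1) : m ∣ x ∧ m ∣ y := by
  have h0 := congrArg (fun u => q.b.repr u) h
  rw [← q.hb0, ← zsmul_eq_mul] at h0
  simp only [map_add, map_zsmul] at h0
  have e0 := congrArg (fun u => u 0) h0
  have e1 := congrArg (fun u => u 1) h0
  simp only [Finsupp.add_apply, Finsupp.smul_apply, Module.Basis.repr_self, smul_eq_mul] at e0 e1
  simp at e0 e1
  exact ⟨⟨_, e0.symm⟩, ⟨_, e1.symm⟩⟩

/-- The discriminant is squarefree. -/
theorem sqf (q : QF D K) (h4 : D % 4 = 3) : Squarefree D := by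
  intro x hx
  have hx0 : x ≠ 0 := by
    rintro rfl
    simp at hx
    omega
  obtain ⟨m, hm⟩ := hx
  have hxK : ((x : ℕ) : K) ≠ 0 := by exact_mod_cast hx0
  set w : K := ((q.b 1 : 𝓞 K) : K) with hw
  have hw1 : w * w = w - (q.e : K) := by
    have := congrArg (fun u : 𝓞 K => (u : K)) q.hb1
    simpa using this
  have hth : (2 * w - 1) ^ 2 = -((D : ℕ) : K) := by
    have he : (4 : K) * (q.e : K) = (D : K) + 1 := by exact_mod_cast congrArg (fun z : ℤ => (z : K)) q.he
    linear_combination 4 * hw1 - he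
  set β : K := (2 * w - 1) / ((x : ℕ) : K) with hβ
  have hβ2 : β ^ 2 = -((m : ℕ) : K) := by
    rw [hβ, div_pow, hth, hm]
    push_cast
    field_simp
  have hint : IsIntegral ℤ β := by
    refine IsIntegral.of_pow (n := 2) (by norm_num) ?_
    rw [hβ2]
    have : (-((m : ℕ) : K)) = algebraMap ℤ K (-(m : ℤ)) := by simp
    rw [this]
    exact isIntegral_algebraMap
  set y : 𝓞 K := ⟨β, hint⟩ with hy
  have key : (((x : ℕ) : ℤ) : 𝓞 K) * y = (-1 : ℤ) • (1 : 𝓞 K) + (2 : ℤ) • q.b 1 := by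
    apply NumberField.RingOfIntegers.ext
    have h5 : algebraMap (𝓞 K) K y = β := rfl
    have h8 : (x : K) * β = 2 * w - 1 := by
      rw [hβ]
      field_simp
    have h9 : algebraMap (𝓞 K) K (q.b 1) = w := rfl
    rw [zsmul_eq_mul, zsmul_eq_mul, mul_one]
    simp only [map_mul, map_add, Int.cast_natCast, Int.cast_neg, Int.cast_one, Int.cast_ofNat, map_neg,
      map_one, map_ofNat, map_natCast]
    rw [h5, h8, h9]
    ring
  have h6 := (coord q _ _ _ _ key).1
  have h7 : ((x : ℕ) : ℤ) ∣ 1 := by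
    rw [← dvd_neg]
    exact h6
  exact Nat.isUnit_iff.2 (by exact_mod_cast Int.eq_one_of_dvd_one (by positivity) h7)

/-- `ω (ω - 1) = -e`. -/
private theorem prod (q : QF D K) : q.b 1 * (q.b 1 - 1) = -(q.e : 𝓞 K) := by
  rw [mul_sub, mul_one, q.hb1]
  ring

/-- `2` is inert only if `D = 3` modulo `8`. -/
theorem inert_two (q : QF D K) (h4 : D % 4 = 3) (hp : (Ideal.span {((2 : ℕ) : 𝓞 K)}).IsPrime) :
    D % 8 = 3 := by
  by_contra hne
  obtain ⟨k, hk⟩ : ∃ k : ℤ, q.e = 2 * k := ⟨q.e / 2, by have := q.he; omega⟩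
  have h1 : q.b 1 * (q.b 1 - 1) ∈ Ideal.span {((2 : ℕ) : 𝓞 K)} := by
    rw [prod, hk, Ideal.mem_span_singleton]
    exact ⟨-(k : 𝓞 K), by push_cast; ring⟩
  rcases hp.mem_or_mem h1 with h | h
  · obtain ⟨z, hz⟩ := Ideal.mem_span_singleton.1 h
    have := (coord q 2 0 1 z (by rw [zero_smul, one_smul, zero_add, hz]; push_cast; rfl)).2
    omega
  · obtain ⟨z, hz⟩ := Ideal.mem_span_singleton.1 h
    have := (coord q 2 (-1) 1 z (by
      rw [one_smul, neg_smul, one_smul]
      have e : -1 + q.b 1 = q.b 1 - 1 := by ring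
      rw [e, hz]; push_cast; rfl)).2
    omega

/-- `3` is inert only if `D = 1` modulo `3`. -/
theorem inert_three (q : QF D K) (hp : (Ideal.span {((3 : ℕ) : 𝓞 K)}).IsPrime) : D % 3 = 1 := by
  by_contra hne
  have hcase : D % 3 = 0 ∨ D % 3 = 2 := by omega
  rcases hcase with h0 | h2
  · obtain ⟨m, hm⟩ : 3 ∣ D := Nat.dvd_of_mod_eq_zero h0
    have h1 : (2 * q.b 1 - 1) * (2 * q.b 1 - 1) ∈ Ideal.span {((3 : ℕ) : 𝓞 K)} := by
      have e1 : (2 * q.b 1 - 1) * (2 * q.b 1 - 1) = -((D : ℕ) : 𝓞 K) := by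
        have he : (4 : 𝓞 K) * (q.e : 𝓞 K) = (D : 𝓞 K) + 1 := by
          exact_mod_cast congrArg (fun z : ℤ => (z : 𝓞 K)) q.he
        linear_combination 4 * q.hb1 - he
      rw [e1, hm, Ideal.mem_span_singleton]
      exact ⟨-(m : 𝓞 K), by push_cast; ring⟩
    have h5 : 2 * q.b 1 - 1 ∈ Ideal.span {((3 : ℕ) : 𝓞 K)} := by
      rcases hp.mem_or_mem h1 with h | h <;> exact h
    obtain ⟨z, hz⟩ := Ideal.mem_span_singleton.1 h5
    have := (coord q 3 (-1) 2 z (by
      have e : (-1 : ℤ) • (1 : 𝓞 K) + (2 : ℤ) • q.b 1 = 2 * q.b 1 - 1 := by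
        rw [zsmul_eq_mul, zsmul_eq_mul]; push_cast; ring
      rw [e, hz]; push_cast; rfl)).2
    omega
  · obtain ⟨k, hk⟩ : ∃ k : ℤ, q.e = 3 * k := ⟨q.e / 3, by have := q.he; omega⟩
    have h1 : q.b 1 * (q.b 1 - 1) ∈ Ideal.span {((3 : ℕ) : 𝓞 K)} := by
      rw [prod, hk, Ideal.mem_span_singleton]
      exact ⟨-(k : 𝓞 K), by push_cast; ring⟩
    rcases hp.mem_or_mem h1 with h | h
    · obtain ⟨z, hz⟩ := Ideal.mem_span_singleton.1 h
      have := (coord q 3 0 1 z (by rw [zero_smul, one_smul, zero_add, hz]; push_cast; rfl)).2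
      omega
    · obtain ⟨z, hz⟩ := Ideal.mem_span_singleton.1 h
      have := (coord q 3 (-1) 1 z (by
        rw [one_smul, neg_smul, one_smul]
        have e : -1 + q.b 1 = q.b 1 - 1 := by ring
        rw [e, hz]; push_cast; rfl)).2
      omega

end

/-! ### Parity of the class number -/

/-- The sum of the residues prime to `D`. -/
private theorem sum_coprime (D : ℕ) (hD : 1 < D) :
    2 * ∑ a ∈ (Finset.range D).filter (fun a => Nat.Coprime D a), a = D * Nat.totient D := by
  set C := (Finset.range D).filter (fun a => Nat.Coprime D a) with hC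
  have hpos : ∀ a ∈ C, 0 < a := by
    intro a ha
    rcases Nat.eq_zero_or_pos a with h | h
    · rw [hC, Finset.mem_filter, h, Nat.coprime_zero_right] at ha
      omega
    · exact h
  have hlt : ∀ a ∈ C, a < D := fun a ha => by
    rw [hC, Finset.mem_filter, Finset.mem_range] at ha
    exact ha.1
  have h1 : ∑ a ∈ C, a = ∑ a ∈ C, (D - a) := by
    refine Finset.sum_nbij' (fun a => D - a) (fun a => D - a) ?_ ?_ ?_ ?_ ?_
    · intro a ha
      have h0 := hpos a ha
      have h2 := hlt a ha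
      rw [hC, Finset.mem_filter, Finset.mem_range] at ha ⊢
      exact ⟨by omega, (Nat.coprime_self_sub_right h2.le).2 ha.2⟩
    · intro a ha
      have h0 := hpos a ha
      have h2 := hlt a ha
      rw [hC, Finset.mem_filter, Finset.mem_range] at ha ⊢
      exact ⟨by omega, (Nat.coprime_self_sub_right h2.le).2 ha.2⟩
    · intro a ha
      have h2 := hlt a ha
      show D - (D - a) = a
      omega
    · intro a ha
      have h2 := hlt a ha
      show D - (D - a) = a
      omega
    · intro a ha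
      have h2 := hlt a ha
      show a = D - (D - a)
      omega
  have h2 : ∑ a ∈ C, a + ∑ a ∈ C, (D - a) = ∑ a ∈ C, D := by
    rw [← Finset.sum_add_distrib]
    exact Finset.sum_congr rfl fun a ha => by have := hlt a ha; omega
  rw [Finset.sum_const, smul_eq_mul] at h2
  have h3 : C.card = Nat.totient D := by
    rw [hC, Nat.totient_eq_card_coprime]
  rw [h3] at h2
  nlinarith [h1, h2, mul_comm D (Nat.totient D)]

/-- If the sum `∑ (a/D) a` is odd then the squarefree odd number `D` is a prime. -/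
theorem prime_of_odd (D : ℕ) (hD : 1 < D) (hodd : Odd D) (hsq : Squarefree D) (h : ¬ (2 : ℤ) ∣ TD D) :
    D.Prime := by
  by_contra hnp
  apply h
  obtain ⟨a, b, ha, hb, hab⟩ : ∃ a b : ℕ, 1 < a ∧ 1 < b ∧ D = a * b := by
    obtain ⟨a, ⟨b, hb⟩, h1, h2⟩ := Nat.exists_dvd_of_not_prime2 hD hnp
    refine ⟨a, b, by omega, ?_, hb⟩
    by_contra h3
    have hb1 : b = 0 ∨ b = 1 := by omega
    rcases hb1 with h4 | h4
    · rw [h4] at hb; omega
    · rw [h4, mul_one] at hb; omega
  have hcop : Nat.Coprime a b := by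
    rw [hab] at hsq
    exact Nat.coprime_of_squarefree_mul hsq
  have hoa : Odd a := by
    rw [hab] at hodd
    exact (Nat.odd_mul.1 hodd).1
  have hob : Odd b := by
    rw [hab] at hodd
    exact (Nat.odd_mul.1 hodd).2
  have ha2 : 2 < a := by
    rcases hoa with ⟨k, hk⟩
    omega
  have hb2 : 2 < b := by
    rcases hob with ⟨k, hk⟩
    omega
  have h4 : 4 ∣ Nat.totient D := by
    rw [hab, Nat.totient_mul hcop]
    exact mul_dvd_mul (Nat.totient_even ha2).two_dvd (Nat.totient_even hb2).two_dvd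
  set C := (Finset.range D).filter (fun a => Nat.Coprime D a) with hC
  have h5 : 2 ∣ ∑ a ∈ C, a := by
    have h6 := sum_coprime D hD
    obtain ⟨k, hk⟩ := h4
    rw [hk] at h6
    refine ⟨D * k, ?_⟩
    have h7 : D * (4 * k) = 2 * (2 * (D * k)) := by ring
    rw [h7] at h6
    exact Nat.eq_of_mul_eq_mul_left (by norm_num) h6
  have h8 : (2 : ℤ) ∣ TD D - ((∑ a ∈ C, a : ℕ) : ℤ) := by
    unfold TD
    rw [hC, Finset.sum_filter]
    push_cast
    rw [← Finset.sum_sub_distrib]
    refine Finset.dvd_sum fun x _ => ?_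
    by_cases hx : Nat.Coprime D x
    · rw [if_pos hx]
      have hg : Int.gcd (x : ℤ) D = 1 := by
        rw [Int.gcd_natCast_natCast]
        exact hx.symm
      rcases jacobiSym.eq_one_or_neg_one hg with e | e
      · rw [e]; simp
      · rw [e]
        exact ⟨-(x : ℤ), by ring⟩
    · rw [if_neg hx]
      have hg : jacobiSym (x : ℤ) D = 0 := by
        rw [jacobiSym.eq_zero_iff]
        refine ⟨by omega, ?_⟩
        intro h9
        apply hx
        rw [Int.gcd_natCast_natCast] at h9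
        exact Nat.Coprime.symm h9
      rw [hg]; simp
  have h9 : (2 : ℤ) ∣ ((∑ a ∈ C, a : ℕ) : ℤ) := by exact_mod_cast h5
  have := dvd_add h8 h9
  rwa [sub_add_cancel] at this

end Pool.Agent.Helper14.IT
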